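import Pool.Agent.Lib.MP_22c8d1_co.Mult

namespace Pool.Agent.Results.MP_22c8d1_co.AllMultiples

open Pool.Agent.Lib.MP_22c8d1_co

/-- `F` is a copy of `s K₂` in `G`: a set of `s` edges of `G`, no two sharing a vertex. -/
def IsCopy {n : ℕ} (G : SimpleGraph (Fin n)) (s : ℕ) (F : Finset G.edgeSet) : Prop :=
  F.card = s ∧ ∀ e ∈ F, ∀ f ∈ F, e ≠ f → ∀ v : Fin n, v ∈ e.1 → v ∉ f.1

/-- `G` has a 2-edge-colouring with no `t K₂` in colour `0` and no `k K₂` in colour `1`. -/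
def TwoColourable {n : ℕ} (G : SimpleGraph (Fin n)) (t k : ℕ) : Prop :=
  ∃ c : G.edgeSet → Fin 2, (∀ F, IsCopy G t F → ¬ ∀ e ∈ F, c e = 0) ∧
    (∀ F, IsCopy G k F → ¬ ∀ e ∈ F, c e = 1)

/-- `G` has a `ZMod k`-edge-colouring with no zero-sum copy of `t K₂`. -/
def ZeroSumFree {n : ℕ} (G : SimpleGraph (Fin n)) (t k : ℕ) : Prop :=
  ∃ c : G.edgeSet → ZMod k, ∀ F, IsCopy G t F → ∑ e ∈ F, c e ≠ 0

/-- The common value of the two extremal numbers. -/
def value (n t k : ℕ) : ℕ :=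
  if n + 2 ≤ 2 * t + k then n.choose 2 else
    max ((t + k - 2).choose 2 + (t + k - 2) * (n - (t + k - 2)))
      ((2 * t - 1).choose 2 + (k - 1).choose 2 + (k - 1) * (n - (k - 1)))

lemma copy_map {n s : ℕ} {G : SimpleGraph (Fin n)} {F : Finset G.edgeSet} (h : IsCopy G s F) :
    MtM G s (F.map (Function.Embedding.subtype _)) := by
  refine ⟨fun e he => ?_, by rw [Finset.card_map, h.1], fun e he f hf hne v hv => ?_⟩
  · obtain ⟨x, -, rfl⟩ := Finset.mem_map.1 he
    exact x.2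
  · obtain ⟨x, hx, rfl⟩ := Finset.mem_map.1 he
    obtain ⟨y, hy, rfl⟩ := Finset.mem_map.1 hf
    exact h.2 x hx y hy (fun e => hne (by rw [e])) v hv

lemma of_twoM {n t k : ℕ} {G : SimpleGraph (Fin n)} (h : TwoM G t k) : TwoColourable G t k := by
  obtain ⟨c, h0, h1⟩ := h
  refine ⟨fun e => if c e.1 = true then 1 else 0, fun F hF hb => h0 _ (copy_map hF) fun e he => ?_,
    fun F hF hb => h1 _ (copy_map hF) fun e he => ?_⟩
  · obtain ⟨x, hx, rfl⟩ := Finset.mem_map.1 he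
    have := hb x hx
    simp only [Function.Embedding.subtype_apply]
    cases hx' : c x.1 <;> simp [hx'] at this ⊢
  · obtain ⟨x, hx, rfl⟩ := Finset.mem_map.1 he
    have := hb x hx
    simp only [Function.Embedding.subtype_apply]
    cases hx' : c x.1 <;> simp [hx'] at this ⊢

lemma zsf_of_two {n t k : ℕ} {G : SimpleGraph (Fin n)} (h : TwoColourable G t k) :
    ZeroSumFree G t k := by
  classical
  obtain ⟨c, h0, h1⟩ := h
  refine ⟨fun e => if c e = 1 then 1 else 0, fun F hF h4 => ?_⟩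
  rw [Finset.sum_boole, ZMod.natCast_eq_zero_iff] at h4
  rcases Nat.eq_zero_or_pos (F.filter (fun e => c e = 1)).card with hz | hz
  · rw [Finset.card_eq_zero, Finset.filter_eq_empty_iff] at hz
    exact h0 F hF fun e he => by have := hz he; omega
  · obtain ⟨F', f1, f2⟩ := Finset.exists_subset_card_eq (Nat.le_of_dvd hz h4)
    have sub : F' ⊆ F := f1.trans (Finset.filter_subset _ _)
    exact h1 F' ⟨f2, fun e he f hf => hF.2 e (sub he) f (sub hf)⟩
      fun e he => (Finset.mem_filter.1 (f1 he)).2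

lemma zm_of {n t k : ℕ} {G : SimpleGraph (Fin n)} (h : ZeroSumFree G t k) : ZM G t k := by
  classical
  obtain ⟨c, hc⟩ := h
  refine ⟨fun e => if h : e ∈ G.edgeSet then c ⟨e, h⟩ else 0, fun F ⟨h1, h2, h3⟩ h4 => ?_⟩
  have hm : (F.subtype (· ∈ G.edgeSet)).map (Function.Embedding.subtype _) = F := by
    rw [Finset.subtype_map, Finset.filter_true_of_mem fun e he => h1 he]
  refine hc (F.subtype (· ∈ G.edgeSet)) ⟨by rw [← h2, ← Finset.card_map, hm],
    fun e he f hf hne v hv => h3 e.1 (Finset.mem_subtype.1 he) f.1 (Finset.mem_subtype.1 hf)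
      (fun e' => hne (Subtype.ext e')) v hv⟩ ?_
  rw [← h4]
  conv_rhs => rw [← hm, Finset.sum_map]
  exact Finset.sum_congr rfl fun e _ => by simp

theorem result (n t k : ℕ) (ht : 1 ≤ t) (hd : k ∣ t) :
    IsGreatest {e : ℕ | ∃ G : SimpleGraph (Fin n), G.edgeSet.ncard = e ∧ TwoColourable G t k}
      (value n t k) ∧
    IsGreatest {e : ℕ | ∃ G : SimpleGraph (Fin n), G.edgeSet.ncard = e ∧ ZeroSumFree G t k}
      (value n t k) := by
  have hk : 1 ≤ k := Nat.pos_of_dvd_of_pos hd ht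
  have up : ∀ G : SimpleGraph (Fin n), ZeroSumFree G t k → G.edgeSet.ncard ≤ value n t k :=
    fun G h => by simpa [valM, value] using zm_le_val hk ht hd (zm_of h)
  obtain ⟨G, g1, g2⟩ := valM_attained (V := Fin n) hk ht
  have g3 : value n t k ≤ G.edgeSet.ncard := by simpa [valM, value] using g2
  have g4 := le_antisymm (up G (zsf_of_two (of_twoM g1))) g3
  exact ⟨⟨⟨G, g4, of_twoM g1⟩, fun e ⟨H, h1, h2⟩ => h1 ▸ up H (zsf_of_two h2)⟩,
    ⟨⟨G, g4, zsf_of_two (of_twoM g1)⟩, fun e ⟨H, h1, h2⟩ => h1 ▸ up H h2⟩⟩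

end Pool.Agent.Results.MP_22c8d1_co.AllMultiples
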